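import Pool.Agent.H445.MJ.Ind

/-!
# MP_f58a57_nt: the exact dimension of the set of the counterexamples to the modular Schanuel conjecture with derivatives and special points

Let `F(n,m)` be the set of the `Gcl`-independent tuples `z` in `(ℍ⁺)^n` with `j'(z_i) ≠ 0` for all `i`, for
which the transcendence degree of `ℚ(z, j(z), j'(z), j''(z))` is at most `3 m₁ + m₂ - m`, where `m₁` is the
number of the non-special `z_i` and `m₂ = n - m₁` the number of the special ones. The conjecture says that
`F(n,m)` is empty for `m ≥ 1`; for these `m` it is the set of the counterexamples of defect at least `m`.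
We prove the following unconditional relation between the size of these sets and the existence of
counterexamples of larger defect.

* The Hausdorff dimension of `F(n,m)` in `ℂ^n` is exactly `2 d`, where `d` is the largest number for
  which `F(n - d, m + d)` is not empty (`0` if `F(n,m)` is empty).
* `d ≤ (3 n - m - 1) / 4`, by Schneider's theorem.
* `F(n,m)` is countable if and only if `F(n - 1, m + 1)` is empty. In particular `F(n,m)` is
  countable for `3 n ≤ m + 4`.
* `F(n, m + d + 1)` is empty for all `n` if and only if for all `n` the Hausdorff dimension of `F(n,m)`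
  is at most `2 d`. For `m = d = 0`: the conjecture holds if and only if for every `n` there are only
  countably many `n`-tuples as above with `trdeg ≤ 3 m₁ + m₂`. For `m = 1`: the conjecture holds up to the
  error `d + 1` if and only if the set `F(n,1)` of all counterexamples has dimension at most `2 d` for
  all `n`.

## The proof (in `Pool.Agent.H445.MJ`)

The main tool is a proof of the full theorem of Ax-Schanuel type for `j` (Pila-Tsimerman) in a
pointwise form, for derivations of `ℂ` and several points of the upper half-plane (`RankJ`, `ChainJ`):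
if `D` runs through a space of derivations which respect the differential equations of `j` at the
points `τ_1, …, τ_s`, the points are pairwise inequivalent under `GL₂⁺(ℚ)` and no `τ_i` is killed by
all `D`, then the numbers `τ_i, j, j', j''` have rank at least `3 s + δ` over the constants, `δ` the
dimension of the space of the vectors `(D τ_i)`. The case of two points with algebraically dependent
`j`'s is a local-global argument at the places of the function field over the cusp (`Loc`, `Glob`,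
`Van`, `PairIA`). It gives the dimension formula for pairwise inequivalent non-special points,
relative to an arbitrary finite set of numbers (`DimJ`). The special points are countable; the numbers
at the special coordinates are the finite set (`Ind`).
-/

set_option autoImplicit false

open Set

noncomputable section

namespace Pool.Agent.Results.MP_f58a57_nt.DimensionFormula

open Pool.Agent.H445.MJ (FI LevI BadI SgS Sg cmS dimI countableI lowerI LevI_bdd LevI_le trdeg_iff CMp
  GL2Q jq_eq deriv_eq deriv2_eq)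

/-- the normalised Eisenstein series of weight `4` -/
def E4 (τ : ℂ) : ℂ :=
  1 + 240 * ∑' m : ℕ, ((ArithmeticFunction.sigma 3 (m + 1) : ℕ) : ℂ) *
    Complex.exp (2 * (Real.pi : ℂ) * Complex.I * τ) ^ (m + 1)

/-- the normalised Eisenstein series of weight `6` -/
def E6 (τ : ℂ) : ℂ :=
  1 - 504 * ∑' m : ℕ, ((ArithmeticFunction.sigma 5 (m + 1) : ℕ) : ℂ) *
    Complex.exp (2 * (Real.pi : ℂ) * Complex.I * τ) ^ (m + 1)

/-- the modular invariant `j = q⁻¹ + 744 + 196884 q + ⋯` -/
def j (τ : ℂ) : ℂ := 1728 * E4 τ ^ 3 / (E4 τ ^ 3 - E6 τ ^ 2)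

/-- `z` is special: it satisfies a nontrivial quadratic equation with integral coefficients. -/
def IsSpecial (z : ℂ) : Prop :=
  ∃ a b c : ℤ, (a ≠ 0 ∨ b ≠ 0 ∨ c ≠ 0) ∧ (a : ℂ) * z ^ 2 + (b : ℂ) * z + (c : ℂ) = 0

/-- `w = (a z + b) / (c z + d)` for a matrix in `GL₂(ℚ)`: the points are in the same orbit. -/
def SameOrbit (z w : ℂ) : Prop :=
  ∃ a b c d : ℚ, a * d - b * c ≠ 0 ∧ w * ((c : ℂ) * z + (d : ℂ)) = (a : ℂ) * z + (b : ℂ)

/-- the number of the `z_i` which are not special -/
def m₁ {n : ℕ} (z : Fin n → ℂ) : ℕ := {i | ¬ IsSpecial (z i)}.ncard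

/-- the number of the `z_i` which are special -/
def m₂ {n : ℕ} (z : Fin n → ℂ) : ℕ := {i | IsSpecial (z i)}.ncard

/-- The numbers `zᵢ, j(zᵢ), j'(zᵢ), j''(zᵢ)`. -/
def numbers {n : ℕ} (z : Fin n → ℂ) : Set ℂ :=
  {x | ∃ i, x = z i ∨ x = j (z i) ∨ x = deriv j (z i) ∨ x = deriv (deriv j) (z i)}

/-- The `n`-tuples of points of the upper half-plane in distinct `GL₂(ℚ)`-orbits, with `j' ≠ 0` at all of them,
for which `trdeg ℚ(z, j(z), j'(z), j''(z)) + m ≤ 3 m₁ + m₂`. -/
def Fails (n m : ℕ) : Set (Fin n → ℂ) :=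
  {z | (∀ i, 0 < (z i).im) ∧ (∀ i k, i ≠ k → ¬ SameOrbit (z i) (z k)) ∧ (∀ i, deriv j (z i) ≠ 0) ∧
    Algebra.trdeg ℚ (IntermediateField.adjoin ℚ (numbers z)) + m ≤ ((3 * m₁ z + m₂ z : ℕ) : Cardinal)}

/-- The largest `d ≤ n` such that `F(n - d, m + d)` is not empty (zero if there is none). -/
def level (n m : ℕ) : ℕ := sSup {d | d ≤ n ∧ (Fails (n - d) (m + d)).Nonempty}

theorem j_eq {τ : ℂ} (h : 0 < τ.im) : j τ = Pool.Agent.Y776.jf τ := by
  rw [← jq_eq h]
  rfl

theorem numbers_eq {n : ℕ} {z : Fin n → ℂ} (hz : ∀ i, 0 < (z i).im) : numbers z = SgS true (range z) := by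
  ext x
  simp only [numbers, SgS, Sg, mem_ofPred_eq, mem_iUnion, mem_range, exists_prop, exists_exists_eq_and,
    mem_insert_iff, mem_singleton_iff]
  exact exists_congr fun i => by
    rw [j_eq (hz i), deriv_eq (fun z hz => j_eq hz) (hz i), deriv2_eq (fun z hz => j_eq hz) (hz i)]

theorem same_iff {z w : ℂ} (hz : 0 < z.im) (hw : 0 < w.im) : SameOrbit z w ↔ GL2Q z w := by
  constructor
  · rintro ⟨a, b, c, d, hdet, h⟩
    refine ⟨a, b, c, d, ?_, h⟩
    have hre := congrArg Complex.re h
    have him := congrArg Complex.im h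
    simp at hre him
    have key : w.im * (((c : ℝ) * z.re + d) ^ 2 + ((c : ℝ) * z.im) ^ 2) = ((a : ℝ) * d - b * c) * z.im := by
      linear_combination ((c : ℝ) * z.re + d) * him - ((c : ℝ) * z.im) * hre
    have h1 : 0 ≤ ((a : ℝ) * d - b * c) * z.im := by
      rw [← key]
      exact mul_nonneg hw.le (by positivity)
    have h2 : 0 ≤ (a : ℝ) * d - b * c := nonneg_of_mul_nonneg_left h1 hz
    have h3 : (0 : ℚ) ≤ a * d - b * c := by exact_mod_cast h2
    exact lt_of_le_of_ne h3 (Ne.symm hdet)
  · rintro ⟨a, b, c, d, hdet, h⟩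
    exact ⟨a, b, c, d, hdet.ne', h⟩

theorem m₁_eq {n : ℕ} {z : Fin n → ℂ} (hz : Function.Injective z) :
    m₁ z = {x | x ∈ range z ∧ ¬ CMp x}.ncard := by
  unfold m₁
  rw [← ncard_image_of_injective _ hz]
  congr 1
  ext x
  constructor
  · rintro ⟨i, h, rfl⟩
    exact ⟨⟨i, rfl⟩, h⟩
  · rintro ⟨⟨i, rfl⟩, h⟩
    exact ⟨i, h, rfl⟩

theorem m₂_eq {n : ℕ} {z : Fin n → ℂ} (hz : Function.Injective z) : m₂ z = (cmS (range z)).ncard := by
  unfold m₂ cmS
  rw [← ncard_image_of_injective _ hz]
  congr 1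
  ext x
  constructor
  · rintro ⟨i, h, rfl⟩
    exact ⟨⟨i, rfl⟩, h⟩
  · rintro ⟨⟨i, rfl⟩, h⟩
    exact ⟨i, h, rfl⟩

theorem Fails_eq (n m : ℕ) : Fails n m = FI n m := by
  ext z
  constructor
  · rintro ⟨h1, h2, h3, h4⟩
    have hinj : Function.Injective z := by
      intro i k hik
      by_contra hne
      exact h2 i k hne ⟨1, 0, 0, 1, by norm_num, by rw [hik]; push_cast; ring⟩
    have h5 := (trdeg_iff m (3 * m₁ z + m₂ z)).1 h4
    rw [numbers_eq h1, m₁_eq hinj, m₂_eq hinj] at h5
    refine ⟨hinj, finite_range z, ?_, ?_, ?_, h5⟩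
    · rintro _ ⟨i, rfl⟩
      exact h1 i
    · rintro _ ⟨i, rfl⟩ _ ⟨k, rfl⟩ hik hG
      exact h2 i k (fun h => hik (by rw [h])) ((same_iff (h1 i) (h1 k)).2 hG)
    · rintro _ ⟨i, rfl⟩
      rw [← deriv_eq (fun z hz => j_eq hz) (h1 i)]
      exact h3 i
  · rintro ⟨hinj, -, h1, h2, h3, h4⟩
    have h1' : ∀ i, 0 < (z i).im := fun i => h1 _ ⟨i, rfl⟩
    refine ⟨h1', ?_, ?_, ?_⟩
    · intro i k hik hG
      exact h2 _ ⟨i, rfl⟩ _ ⟨k, rfl⟩ (fun h => hik (hinj h)) ((same_iff (h1' i) (h1' k)).1 hG)
    · intro i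
      rw [deriv_eq (fun z hz => j_eq hz) (h1' i)]
      exact h3 _ ⟨i, rfl⟩
    · refine (trdeg_iff m (3 * m₁ z + m₂ z)).2 ?_
      rw [numbers_eq h1', m₁_eq hinj, m₂_eq hinj]
      exact h4

theorem Lev_eq (n m : ℕ) : LevI n m = {d | d ≤ n ∧ (Fails (n - d) (m + d)).Nonempty} := by
  ext d
  rw [mem_ofPred_eq, Fails_eq]
  rfl

theorem dim_eq (n m : ℕ) : dimH (Fails n m) = (2 * level n m : ℕ) := by
  rw [Fails_eq, level, ← Lev_eq]
  exact dimI n m

theorem lower {n m d : ℕ} (hd : d ≤ n) (h : (Fails (n - d) (m + d)).Nonempty) :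
    ((2 * d : ℕ) : ENNReal) ≤ dimH (Fails n m) := by
  rw [Fails_eq]
  apply lowerI
  rw [Lev_eq]
  exact ⟨hd, h⟩

theorem mono {n m m' : ℕ} (h : m ≤ m') {z : Fin n → ℂ} (hz : z ∈ Fails n m') : z ∈ Fails n m := by
  refine ⟨hz.1, hz.2.1, hz.2.2.1, le_trans (add_le_add le_rfl ?_) hz.2.2.2⟩
  exact_mod_cast h

theorem bdd {n : ℕ} {P : ℕ → Prop} : BddAbove {d | d ≤ n ∧ P d} := ⟨n, fun _ h => h.1⟩

theorem level_le (n m : ℕ) : level n m ≤ (3 * n - m - 1) / 4 := by
  rcases Set.eq_empty_or_nonempty {d | d ≤ n ∧ (Fails (n - d) (m + d)).Nonempty} with h | h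
  · rw [level, h, csSup_empty]
    exact Nat.zero_le _
  · have h1 := Nat.sSup_mem h bdd
    rw [← Lev_eq] at h1
    have h2 := LevI_le h1
    rw [Lev_eq] at h2
    exact h2

theorem countable_iff {n m : ℕ} (hn : 1 ≤ n) : (Fails n m).Countable ↔ Fails (n - 1) (m + 1) = ∅ := by
  rw [Fails_eq, countableI, Lev_eq]
  constructor
  · intro h
    by_contra hne
    exact h ⟨hn, nonempty_iff_ne_empty.2 hne⟩
  · rintro h ⟨-, h2⟩
    rw [h] at h2
    exact not_nonempty_empty h2

theorem error_iff (m d : ℕ) :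
    (∀ n, Fails n (m + d + 1) = ∅) ↔ ∀ n, dimH (Fails n m) ≤ (2 * d : ℕ) := by
  constructor
  · intro h n
    rw [dim_eq]
    have h1 : level n m ≤ d := by
      rcases Set.eq_empty_or_nonempty {e | e ≤ n ∧ (Fails (n - e) (m + e)).Nonempty} with h0 | h0
      · rw [level, h0, csSup_empty]
        exact Nat.zero_le _
      · obtain ⟨h1, z, hz⟩ := Nat.sSup_mem h0 bdd
        by_contra hcon
        have h2 := mono (m := m + d + 1) (by
          change m + d + 1 ≤ m + level n m
          omega) hz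
        rw [h] at h2
        exact h2
    exact_mod_cast Nat.mul_le_mul_left 2 h1
  · intro h s
    by_contra hne
    have h1 := lower (n := s + (d + 1)) (m := m) (d := d + 1) (by omega) (by
      rw [Nat.add_sub_cancel, ← add_assoc]
      exact nonempty_iff_ne_empty.2 hne)
    have h2 := h1.trans (h (s + (d + 1)))
    have h3 : 2 * (d + 1) ≤ 2 * d := by exact_mod_cast h2
    omega

theorem result :
    -- the dimension
    (∀ n m : ℕ, dimH (Fails n m) = (2 * level n m : ℕ) ∧ level n m ≤ (3 * n - m - 1) / 4) ∧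
    -- countability
    (∀ n m : ℕ, 1 ≤ n → ((Fails n m).Countable ↔ Fails (n - 1) (m + 1) = ∅)) ∧
    (∀ n m : ℕ, 3 * n ≤ m + 4 → (Fails n m).Countable) ∧
    -- the conjecture, and the conjecture with bounded error
    (∀ m d : ℕ, (∀ n, Fails n (m + d + 1) = ∅) ↔ ∀ n, dimH (Fails n m) ≤ (2 * d : ℕ)) ∧
    (∀ m : ℕ, (∀ n, Fails n (m + 1) = ∅) ↔ ∀ n, (Fails n m).Countable) := by
  refine ⟨fun n m => ⟨dim_eq n m, level_le n m⟩, fun n m hn => countable_iff hn, fun n m h => ?_, error_iff,
    fun m => ?_⟩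
  · rw [Fails_eq, countableI]
    intro h1
    have := LevI_le h1
    omega
  · constructor
    · intro h n
      rcases Nat.eq_zero_or_pos n with rfl | hn
      · exact Set.countable_univ.mono (subset_univ _)
      · exact (countable_iff hn).2 (h (n - 1))
    · intro h n
      exact (countable_iff (n := n + 1) (m := m) (by omega)).1 (h (n + 1))

end Pool.Agent.Results.MP_f58a57_nt.DimensionFormula
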